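import Pool.Agent.Helper35.IL.Stm
import Pool.Agent.Helper78.AL.RkT
import Pool.Agent.Helper78.AL.RkHS

/-! Package RKT of the project IL. -/

set_option autoImplicit false

namespace Pool.Agent.Helper78.IL

open Pool.Agent.Helper78.AL

/-- **Package RKT** -/
theorem rkt : Pool.Agent.Helper35.IL.S_RKT := by
  intro r hr e he he0 s hs ε hε N U
  refine rkT ec_aux r e ε (fun i => ?_) (fun i => ?_) hr.zero (fun d => ⟨hr.mono d, hr.step d⟩)
    he he0 (fun k => (s k : ℂ)) (fun n h => hs.free n (Pool.Agent.Helper35.EM.mem_cl.2 h)) N U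
  · rcases hε i with h | h
    · rw [h]; exact isAlgebraic_one
    · rw [h]
      exact ⟨Polynomial.X ^ 2 + 1, by
        intro h0
        have h1 := congrArg (fun P : Polynomial ℚ => P.coeff 0) h0
        simp at h1, by simp⟩
  · rcases hε i with h | h
    · rw [h]; exact one_ne_zero
    · rw [h]; exact Complex.I_ne_zero

end Pool.Agent.Helper78.IL
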